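import Pool.Agent.Y34.EL.Stm
import Pool.Agent.Y155.HB.Slab

/-!
Project EL: Stewart's inequality and comparison of two geodesics.
-/

set_option autoImplicit false

universe u

open Metric Set Filter Topology
open Pool.Agent.TH60.FP Pool.Agent.Y34.HB Pool.Agent.Y34.EL Pool.Agent.Y155.HB

namespace Pool.Agent.Y93.EL

section

variable {X : Type u} [MetricSpace X]

/-- points on a geodesic divide it -/
theorem on_dv [ProperSpace X] (hX : CN X) {o p : X} {l : ℝ} {y : X} (h0 : 0 ≤ l) (h1 : l ≤ 1)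
    (h : On o p (l * dist o p) y) : Dv o p l y := by
  obtain ⟨m, hm⟩ := dv_exists hX o p l h0 h1
  have e1 : dist y m ^ 2 ≤ 0 := by
    have e2 := hm y
    have e3 : dist y o = l * dist o p := by rw [dist_comm]; exact h.1
    rw [e3, h.2] at e2
    calc dist y m ^ 2 ≤ _ := e2
      _ = 0 := by ring
  have e4 : dist y m = 0 := pow_eq_zero_iff two_ne_zero |>.1 (le_antisymm e1 (sq_nonneg _))
  rw [dist_eq_zero.1 e4]
  exact hm

theorem on_ratio {o p : X} {t : ℝ} {y : X} (h : On o p t y) :
    ∃ l : ℝ, 0 ≤ l ∧ l ≤ 1 ∧ t = l * dist o p := by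
  have h0 : 0 ≤ t := by rw [← h.1]; exact dist_nonneg
  have h1 : t ≤ dist o p := by
    have h2 : 0 ≤ dist o p - t := by rw [← h.2]; exact dist_nonneg
    linarith
  rcases (dist_nonneg (x := o) (y := p)).eq_or_lt with hd | hd
  · refine ⟨0, le_rfl, zero_le_one, ?_⟩
    rw [zero_mul]
    linarith
  · refine ⟨t / dist o p, div_nonneg h0 hd.le, (div_le_one hd).2 h1, ?_⟩
    rw [div_mul_cancel₀ _ hd.ne']

theorem on_exists [ProperSpace X] (hX : CN X) (o p : X) (l : ℝ) (h0 : 0 ≤ l) (h1 : l ≤ 1) :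
    ∃ y, On o p (l * dist o p) y := by
  obtain ⟨m, hm⟩ := dv_exists hX o p l h0 h1
  have e1 := hm.left h0
  have e2 := hm.right h1
  have e3 := dist_triangle o m p
  refine ⟨m, ?_, ?_⟩
  · linarith
  · linarith

/-- two geodesics with a common start -/
theorem common [ProperSpace X] (hX : CN X) {o p q : X} {l : ℝ} {a b : X} (h0 : 0 ≤ l)
    (h1 : l ≤ 1) (ha : On o p (l * dist o p) a) (hb : On o q (l * dist o q) b) :
    dist a b ≤ l * dist p q := by
  have e1 := on_dv hX h0 h1 ha q
  have e2 := on_dv hX h0 h1 hb a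
  have e3 : dist a o = l * dist o p := by rw [dist_comm]; exact ha.1
  rw [e3, dist_comm a q] at e2
  rw [dist_comm q o, dist_comm q p] at e1
  have e4 : l * dist q a ^ 2 ≤ l * ((1 - l) * dist o q ^ 2 + l * dist p q ^ 2 -
      l * (1 - l) * dist o p ^ 2) := mul_le_mul_of_nonneg_left e1 h0
  refine (pow_le_pow_iff_left₀ dist_nonneg (mul_nonneg h0 dist_nonneg) two_ne_zero).1 ?_
  have e5 : (l * dist p q) ^ 2 = (1 - l) * (l * dist o p) ^ 2 +
      l * ((1 - l) * dist o q ^ 2 + l * dist p q ^ 2 - l * (1 - l) * dist o p ^ 2) -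
      l * (1 - l) * dist o q ^ 2 := by ring
  rw [e5]
  linarith

/-- the reversed geodesic -/
theorem on_rev {p q : X} {l : ℝ} {e : X} (h : On p q (l * dist p q) e) :
    On q p ((1 - l) * dist q p) e := by
  refine ⟨?_, ?_⟩
  · rw [dist_comm q e, h.2, dist_comm q p]
    ring
  · rw [dist_comm e p, h.1, dist_comm q p]
    ring

end

/-- geodesics exist and are unique, Stewart inequality -/
theorem t1 : S_STEW.{u} := by
  intro X _ _ hX
  refine ⟨fun o p t h0 h1 => ?_, fun o p t y y' h h' => ?_, fun o p t y h x => ?_⟩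
  · rcases (dist_nonneg (x := o) (y := p)).eq_or_lt with hd | hd
    · have ht : t = 0 := le_antisymm (by rw [hd]; exact h1) h0
      exact ⟨o, by rw [dist_self, ht], by rw [ht, sub_zero]⟩
    · obtain ⟨y, hy⟩ := on_exists hX o p (t / dist o p) (div_nonneg h0 hd.le)
        ((div_le_one hd).2 h1)
      rw [div_mul_cancel₀ _ hd.ne'] at hy
      exact ⟨y, hy⟩
  · obtain ⟨l, h0, h1, ht⟩ := on_ratio h
    rw [ht] at h h'
    have e1 := on_dv hX h0 h1 h y'
    have e3 : dist y' o = l * dist o p := by rw [dist_comm]; exact h'.1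
    rw [e3, h'.2] at e1
    have e2 : dist y' y ^ 2 ≤ 0 := by
      calc dist y' y ^ 2 ≤ _ := e1
        _ = 0 := by ring
    have e4 : dist y' y = 0 := pow_eq_zero_iff two_ne_zero |>.1 (le_antisymm e2 (sq_nonneg _))
    exact (dist_eq_zero.1 e4).symm
  · obtain ⟨l, h0, h1, ht⟩ := on_ratio h
    rw [ht] at h
    have e1 := mul_le_mul_of_nonneg_left (on_dv hX h0 h1 h x) (dist_nonneg (x := o) (y := p))
    rw [ht]
    calc dist o p * dist x y ^ 2 ≤ _ := e1
      _ = _ := by ring

/-- comparison of two geodesics -/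
theorem t2 (h : S_STEW.{u}) : S_CMP.{u} := by
  intro X _ _ hX
  obtain ⟨-, -, h3⟩ := h X hX
  refine ⟨fun o p q s a b ha hb => ?_, fun p q p' q' l a b ha hb h0 h1 => ?_⟩
  · have hs : 0 ≤ s := by rw [← ha.1]; exact dist_nonneg
    have e1 := mul_le_mul_of_nonneg_left (h3 o p s a ha q) hs
    have e2 := mul_le_mul_of_nonneg_left (h3 o q s b hb a) (dist_nonneg (x := o) (y := p))
    have e3 : dist a o = s := by rw [dist_comm]; exact ha.1
    rw [e3, dist_comm a q] at e2
    rw [dist_comm q o, dist_comm q p] at e1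
    have e5 : s ^ 2 * (dist p q ^ 2 - (dist o p - dist o q) ^ 2) =
        s * ((dist o p - s) * dist o q ^ 2 + s * dist p q ^ 2 - s * (dist o p - s) * dist o p) -
        s * (dist o p * dist q a ^ 2) + dist o p * ((dist o q - s) * s ^ 2 + s * dist q a ^ 2 -
          s * (dist o q - s) * dist o q) := by ring
    rw [e5]
    have e6 : dist a b ^ 2 * (dist o p * dist o q) = dist o p * (dist o q * dist a b ^ 2) := by
      ring
    rw [e6]
    linarith
  · obtain ⟨e, he⟩ := on_exists hX p q' l h0 h1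
    have e1 := common hX h0 h1 ha he
    have e2 := common hX (by linarith : 0 ≤ 1 - l) (by linarith : 1 - l ≤ 1) (on_rev he)
      (on_rev hb)
    have e3 := dist_triangle a e b
    linarith

end Pool.Agent.Y93.EL
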